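import Pool.Agent.L7h10.AB.Stm2

/-! Project AB, stage two: the coprime half of CC (safety copy). -/

namespace Pool.Agent.L7h25.AB
open Polynomial
open Pool.Agent.L7h10.AB

theorem cc_cop (hC : S_CARD) (hR : S_RES) : ∀ (K : Type) [Field K] [Finite K] (p : ℕ) [CharP K p] (n : ℕ),
    7 ≤ n → n + 1 < p →
    Nat.card {x : (Mon K 2 × Mon K (n - 3)) × (Mon K 2 × Mon K (n - 3)) // x.1 ≠ x.2 ∧
      derivative (x.1.1.1 ^ 2 * x.1.2.1) = derivative (x.2.1.1 ^ 2 * x.2.2.1) ∧
      IsCoprime x.1.1.1 x.2.1.1} ≤ Nat.card K ^ (n - 2) := by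
  intro K _ _ p _ n hn hp
  classical
  haveI : ∀ m, Finite (Mon K m) := fun m => (hC K m).1
  haveI : Fintype K := Fintype.ofFinite K
  haveI : ∀ m, Fintype (Mon K m) := fun m => Fintype.ofFinite _
  -- constants
  have hconst : ∀ (g g' : Mon K 2) (h h' : Mon K (n - 3)),
      derivative (g.1 ^ 2 * h.1) = derivative (g'.1 ^ 2 * h'.1) →
      g.1 ^ 2 * h.1 - g'.1 ^ 2 * h'.1 = C ((g.1 ^ 2 * h.1 - g'.1 ^ 2 * h'.1).coeff 0) := by
    intro g g' h h' he
    have hd : ∀ (g : Mon K 2) (h : Mon K (n - 3)), (g.1 ^ 2 * h.1).natDegree = n + 1 := by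
      intro g h
      rw [(g.2.1.pow 2).natDegree_mul h.2.1, g.2.1.natDegree_pow, g.2.2, h.2.2]
      omega
    ext i
    rcases Nat.eq_zero_or_pos i with rfl | hi
    · simp
    · rw [coeff_C_ne_zero hi.ne']
      by_cases hin : n + 1 < i
      · rw [coeff_sub, coeff_eq_zero_of_natDegree_lt (by rw [hd]; exact hin),
          coeff_eq_zero_of_natDegree_lt (by rw [hd]; exact hin), sub_zero]
      · have h0 : (derivative (g.1 ^ 2 * h.1 - g'.1 ^ 2 * h'.1)).coeff (i - 1) = 0 := by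
          rw [derivative_sub, he, sub_self, coeff_zero]
        rw [coeff_derivative, Nat.sub_add_cancel hi] at h0
        rcases mul_eq_zero.1 h0 with h1 | h1
        · exact h1
        · exfalso
          have h2 : ((i : ℕ) : K) = 0 := by
            rw [← h1, Nat.cast_sub hi]
            push_cast
            ring
          have h3 := (CharP.cast_eq_zero_iff K p i).1 h2
          exact absurd (Nat.le_of_dvd hi h3) (by omega)
  let A := {x : (Mon K 2 × Mon K (n - 3)) × (Mon K 2 × Mon K (n - 3)) // x.1 ≠ x.2 ∧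
      derivative (x.1.1.1 ^ 2 * x.1.2.1) = derivative (x.2.1.1 ^ 2 * x.2.2.1) ∧
      IsCoprime x.1.1.1 x.2.1.1}
  let f : A → Mon K 2 × Mon K 2 × K := fun x =>
    (x.1.1.1, x.1.2.1, (x.1.1.1.1 ^ 2 * x.1.1.2.1 - x.1.2.1.1 ^ 2 * x.1.2.2.1).coeff 0)
  have hfib : ∀ t, Nat.card {x : A // f x = t} ≤ Nat.card K ^ (n - 7) := by
    rintro ⟨g, g', c⟩
    by_cases hcop : IsCoprime g.1 g'.1
    · obtain ⟨a, b, hab⟩ := (hcop.pow_left (m := 2)).pow_right (n := 2)
      have hres := hR K (n - 3) (g'.1 ^ 2) (a * C c) (g'.2.1.pow 2)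
        (by rw [g'.2.1.natDegree_pow, g'.2.2]; omega)
      rw [g'.2.1.natDegree_pow, g'.2.2] at hres
      have e : n - 3 - 2 * 2 = n - 7 := by omega
      rw [e] at hres
      rw [← hres]
      haveI : Finite {h : Mon K (n - 3) // g'.1 ^ 2 ∣ h.1 - a * C c} := inferInstance
      have hx : ∀ x : {x : A // f x = (g, g', c)},
          g.1 ^ 2 * x.1.1.1.2.1 - g'.1 ^ 2 * x.1.1.2.2.1 = C c := by
        rintro ⟨⟨⟨⟨g1, h⟩, ⟨g2, h'⟩⟩, hne, hde, hco⟩, hf⟩
        simp only [f, Prod.mk.injEq] at hf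
        obtain ⟨e1, e2, e3⟩ := hf
        subst e1
        subst e2
        subst e3
        exact hconst _ _ _ _ hde
      refine Nat.card_le_card_of_injective (fun x => ⟨x.1.1.1.2, ?_⟩) ?_
      · refine ⟨a * x.1.1.2.2.1 + b * x.1.1.1.2.1, ?_⟩
        have h1 := hx x
        linear_combination (- x.1.1.1.2.1) * hab + a * h1
      · intro x y hxy
        have h0 : x.1.1.1.2 = y.1.1.1.2 := congrArg Subtype.val hxy
        have h1 := hx x
        have h2 := hx y
        have h3 : g'.1 ^ 2 * x.1.1.2.2.1 = g'.1 ^ 2 * y.1.1.2.2.1 := by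
          rw [h0] at h1
          linear_combination h2 - h1
        have h4 : x.1.1.2.2.1 = y.1.1.2.2.1 :=
          mul_left_cancel₀ (pow_ne_zero 2 g'.2.1.ne_zero) h3
        have h5 : x.1.1.2.2 = y.1.1.2.2 := Subtype.ext h4
        have fx := x.2
        have fy := y.2
        simp only [f, Prod.mk.injEq] at fx fy
        exact Subtype.ext (Subtype.ext (Prod.ext (Prod.ext (fx.1.trans fy.1.symm) h0)
          (Prod.ext (fx.2.1.trans fy.2.1.symm) h5)))
    · have : IsEmpty {x : A // f x = (g, g', c)} := by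
        refine ⟨?_⟩
        rintro ⟨⟨⟨⟨g1, h⟩, ⟨g2, h'⟩⟩, hne, hde, hco⟩, hf⟩
        simp only [f, Prod.mk.injEq] at hf
        obtain ⟨e1, e2, e3⟩ := hf
        subst e1
        subst e2
        exact hcop hco
      rw [Nat.card_of_isEmpty]
      exact Nat.zero_le _
  have h1 : Nat.card A = ∑ t, Nat.card {x : A // f x = t} := by
    rw [← Nat.card_sigma]
    exact (Nat.card_congr (Equiv.sigmaFiberEquiv f)).symm
  show Nat.card A ≤ _
  rw [h1]
  refine (Finset.sum_le_sum fun t _ => hfib t).trans ?_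
  rw [Finset.sum_const, Finset.card_univ, smul_eq_mul, ← Nat.card_eq_fintype_card, Nat.card_prod,
    Nat.card_prod, (hC K 2).2, ← pow_succ, ← pow_add, ← pow_add]
  exact le_of_eq (congrArg _ (by omega))

end Pool.Agent.L7h25.AB
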