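import Pool.Agent.L7h10.AB.Stm

/-! Project AB, part THREEB: the count in degree three. -/

namespace Pool.Agent.L7h25.AB
open Polynomial
open Pool.Agent.L7h10.AB

lemma monic3 {K : Type} [Field K] (b c : K) : (X ^ 3 + C b * X + C c : K[X]).Monic := by
  have : (X ^ 3 + C b * X + C c : K[X]) = X ^ 3 + (C b * X + C c) := by ring
  rw [this]
  apply monic_X_pow_add
  refine lt_of_le_of_lt (b := (1 : WithBot ℕ)) ?_ (by norm_num)
  compute_degree

lemma deg3 {K : Type} [Field K] (b c : K) : (X ^ 3 + C b * X + C c : K[X]).natDegree = 3 := by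
  compute_degree!

lemma coeff3 {K : Type} [Field K] (b c : K) :
    (X ^ 3 + C b * X + C c : K[X]).coeff 0 = c ∧ (X ^ 3 + C b * X + C c : K[X]).coeff 1 = b ∧
    (X ^ 3 + C b * X + C c : K[X]).coeff 2 = 0 := by
  refine ⟨?_, ?_, ?_⟩
  · simp [coeff_X, coeff_C]
  · simp [coeff_X, coeff_C, coeff_X_pow]
  · simp [coeff_X, coeff_C, coeff_X_pow]

lemma eq3 {K : Type} [Field K] (f : K[X]) (hm : f.Monic) (hd : f.natDegree = 3)
    (h2 : f.coeff 2 = 0) : f = X ^ 3 + C (f.coeff 1) * X + C (f.coeff 0) := by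
  have h3 : f.coeff 3 = 1 := by
    rw [← hd]
    exact hm
  conv_lhs => rw [f.as_sum_range_C_mul_X_pow, hd]
  rw [Finset.sum_range_succ, Finset.sum_range_succ, Finset.sum_range_succ, Finset.sum_range_succ,
    Finset.sum_range_zero, h2, h3]
  simp only [map_one, map_zero]
  ring

lemma count {K : Type} [Field K] [Finite K] (h2 : (2 : K) ≠ 0) (h3 : (3 : K) ≠ 0) :
    Nat.card {x : K × K // 4 * x.1 ^ 3 + 27 * x.2 ^ 2 ≠ 0 ∧ x.2 ≠ 0} = (Nat.card K - 1) ^ 2 := by
  classical
  haveI := Fintype.ofFinite K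
  rw [Nat.card_eq_fintype_card, Nat.card_eq_fintype_card, Fintype.card_subtype]
  let A : Finset (K × K) := (Finset.univ : Finset K) ×ˢ (Finset.univ.erase (0 : K))
  let B : Finset (K × K) := (Finset.univ.erase (0 : K)).image fun u => (-3 * u ^ 2, 2 * u ^ 3)
  have hB : B.card = Fintype.card K - 1 := by
    rw [Finset.card_image_of_injOn, Finset.card_erase_of_mem (Finset.mem_univ _), Finset.card_univ]
    intro u hu v hv huv
    have hu0 : u ≠ 0 := (Finset.mem_erase.1 hu).1
    have hv0 : v ≠ 0 := (Finset.mem_erase.1 hv).1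
    simp only [Prod.mk.injEq] at huv
    obtain ⟨e1, e2⟩ := huv
    have e1' : u ^ 2 = v ^ 2 := mul_left_cancel₀ (neg_ne_zero.2 h3) e1
    have e2' : u ^ 3 = v ^ 3 := mul_left_cancel₀ h2 e2
    have : u ^ 2 * u = u ^ 2 * v := by
      calc u ^ 2 * u = u ^ 3 := by ring
        _ = v ^ 3 := e2'
        _ = v ^ 2 * v := by ring
        _ = u ^ 2 * v := by rw [e1']
    exact mul_left_cancel₀ (pow_ne_zero 2 hu0) this
  have hA : A.card = Fintype.card K * (Fintype.card K - 1) := by
    rw [Finset.card_product, Finset.card_erase_of_mem (Finset.mem_univ _), Finset.card_univ]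
  have hBA : B ⊆ A := by
    intro x hx
    obtain ⟨u, hu, rfl⟩ := Finset.mem_image.1 hx
    have hu0 : u ≠ 0 := (Finset.mem_erase.1 hu).1
    exact Finset.mem_product.2 ⟨Finset.mem_univ _, Finset.mem_erase.2
      ⟨mul_ne_zero h2 (pow_ne_zero 3 hu0), Finset.mem_univ _⟩⟩
  have key : (Finset.univ.filter fun x : K × K => 4 * x.1 ^ 3 + 27 * x.2 ^ 2 ≠ 0 ∧ x.2 ≠ 0)
      = A \ B := by
    ext ⟨b, c⟩
    simp only [Finset.mem_filter, Finset.mem_univ, true_and, Finset.mem_sdiff]
    constructor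
    · rintro ⟨h, hc⟩
      refine ⟨Finset.mem_product.2 ⟨Finset.mem_univ _, Finset.mem_erase.2
        ⟨hc, Finset.mem_univ _⟩⟩, ?_⟩
      intro hb
      obtain ⟨u, hu, e⟩ := Finset.mem_image.1 hb
      simp only [Prod.mk.injEq] at e
      apply h
      rw [← e.1, ← e.2]
      ring
    · rintro ⟨hA', hB'⟩
      have hc : c ≠ 0 := (Finset.mem_erase.1 (Finset.mem_product.1 hA').2).1
      refine ⟨?_, hc⟩
      intro h
      apply hB'
      have hb : b ≠ 0 := by
        rintro rfl
        have : (27 : K) * c ^ 2 = 0 := by linear_combination h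
        rcases mul_eq_zero.1 this with h' | h'
        · apply h3
          have : (3 : K) ^ 3 = 0 := by rw [← h']; norm_num
          exact pow_eq_zero_iff (by norm_num) |>.1 this
        · exact hc (pow_eq_zero_iff (by norm_num) |>.1 h')
      refine Finset.mem_image.2 ⟨-3 * c / (2 * b), Finset.mem_erase.2 ⟨?_, Finset.mem_univ _⟩, ?_⟩
      · exact div_ne_zero (mul_ne_zero (neg_ne_zero.2 h3) hc) (mul_ne_zero h2 hb)
      · have e1 : -3 * (-3 * c / (2 * b)) ^ 2 = b := by
          rw [div_pow, mul_div_assoc', div_eq_iff (pow_ne_zero 2 (mul_ne_zero h2 hb))]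
          linear_combination -h
        have e2 : 2 * (-3 * c / (2 * b)) ^ 3 = c := by
          rw [div_pow, mul_div_assoc', div_eq_iff (pow_ne_zero 3 (mul_ne_zero h2 hb))]
          linear_combination (-2 * c) * h
        exact Prod.ext e1 e2
  rw [key, Finset.card_sdiff_of_subset hBA, hA, hB]
  have : 1 ≤ Fintype.card K := Fintype.card_pos
  obtain ⟨q, hq⟩ := Nat.exists_eq_add_of_le this
  rw [hq]
  simp only [Nat.add_sub_cancel_left]
  have : (1 + q) * q - q = q ^ 2 := by
    have : (1 + q) * q = q ^ 2 + q := by ring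
    omega
  exact this

theorem s_THREEB : S_THREEB := by
  intro hA K _ _ p _ hp
  have hpp : p.Prime := by
    rcases CharP.char_is_prime_or_zero K p with h | h
    · exact h
    · omega
  have cast_ne : ∀ n : ℕ, 0 < n → n < p → (n : K) ≠ 0 := by
    intro n h0 hn h
    have := (CharP.cast_eq_zero_iff K p n).1 h
    exact absurd (Nat.le_of_dvd h0 this) (by omega)
  have h2 : (2 : K) ≠ 0 := by
    have := cast_ne 2 (by norm_num) (by omega)
    exact_mod_cast this
  have h3 : (3 : K) ≠ 0 := by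
    have := cast_ne 3 (by norm_num) (by omega)
    exact_mod_cast this
  rw [← count h2 h3]
  refine (Nat.card_congr (Equiv.ofBijective (fun x : {x : K × K // 4 * x.1 ^ 3 + 27 * x.2 ^ 2 ≠ 0 ∧
    x.2 ≠ 0} => (⟨X ^ 3 + C x.1.1 * X + C x.1.2, monic3 _ _, deg3 _ _, (coeff3 _ _).2.2,
      (hA K p hp _ _).2 x.2⟩ :
      {f : K[X] // f.Monic ∧ f.natDegree = 3 ∧ f.coeff (3 - 1) = 0 ∧ SB f})) ⟨?_, ?_⟩)).symm
  · intro x y hxy
    have e := congrArg Subtype.val hxy
    simp only at e
    have e0 := congrArg (fun f => coeff f 0) e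
    have e1 := congrArg (fun f => coeff f 1) e
    simp only [(coeff3 _ _).1, (coeff3 _ _).2.1] at e0 e1
    exact Subtype.ext (Prod.ext e1 e0)
  · rintro ⟨f, hm, hd, hc, hs⟩
    have e := eq3 f hm hd hc
    have hs' := hs
    rw [e] at hs'
    refine ⟨⟨(f.coeff 1, f.coeff 0), (hA K p hp _ _).1 hs'⟩, Subtype.ext e.symm⟩

end Pool.Agent.L7h25.AB
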